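import Pool.Agent.R559.NP.Near
import Pool.Agent.Results.MP_05f553_nt.FewExceptions

/-!
# Philippon's inequality for all pairs near a given point

Let `φ` be any map from the pairs `(x, y)` of rational numbers to a metric space `X`, for example
`φ (x, y) = y` with values in the real or in the `p`-adic numbers. Let `B ≥ 5` and `ε = 2 / B`. Outside
a set of points `ξ` of Hausdorff dimension zero, for all `τ > 0` and `A` there are `α` and `β` such that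
Philippon's inequality with the constants `B, α, β, ε` holds for all pairs `(x, y)` with
`dist (φ (x, y)) ξ ≤ A * H(y) ^ (-τ)`, where `H` is the height. For given `α, β` this is true up to
finitely many pairs outside a set of dimension at most `2 / (α τ)`.
-/

set_option autoImplicit false

namespace Pool.Agent.Results.MP_05f553_nt.PairsNearAPoint

open Filter Topology MeasureTheory

/-- The height `max (|a|, |b|)` of `r = a / b` (lowest terms). -/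
noncomputable def H (r : ℚ) : ℝ := max |((r.num : ℤ) : ℝ)| ((r.den : ℕ) : ℝ)

/-- The inequality of the question for the pair `(x, y)`; the sums are over the primes which divide
the numerator of `x y ^ B + 1`. -/
def Holds (B : ℕ) (α β ε : ℝ) (x y : ℚ) : Prop :=
  -(∑ p ∈ (x * y ^ B + 1).num.natAbs.primeFactors,
      Real.log ((padicNorm p (x * y ^ B + 1) : ℚ) : ℝ))
    ≤ α * (B : ℝ) * Real.log (H x) + ε * (B : ℝ) * Real.log (H y)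
      + (B : ℝ) * (α * (B : ℝ) + ε) *
          (β + ∑ p ∈ (x * y ^ B + 1).num.natAbs.primeFactors, Real.log (p : ℝ))

/-- the pairs of the question: nonzero rational numbers with `x y ^ B ≠ 1, -1` -/
def Pair (B : ℕ) (t : ℚ × ℚ) : Prop :=
  t.1 ≠ 0 ∧ t.2 ≠ 0 ∧ t.1 * t.2 ^ B ≠ 1 ∧ t.1 * t.2 ^ B ≠ -1

/-- the pair `t = (x, y)` lies near `ξ` (through `φ`), with exponent `τ` and constant `A` -/
def Near {X : Type} [MetricSpace X] (φ : ℚ × ℚ → X) (B : ℕ) (A τ : ℝ) (ξ : X) (t : ℚ × ℚ) : Prop :=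
  Pair B t ∧ dist (φ t) ξ ≤ A * H t.2 ^ (-τ)

lemma one_le_H (r : ℚ) : 1 ≤ H r := by
  have h1 : (1 : ℝ) ≤ ((r.den : ℕ) : ℝ) := by exact_mod_cast r.den_pos
  exact h1.trans (le_max_right _ _)

/-- the exceptional pairs -/
def Bad (B : ℕ) (α β ε : ℝ) (t : ℚ × ℚ) : Prop := Pair B t ∧ ¬ Holds B α β ε t.1 t.2

lemma exceptions_eq (B : ℕ) (α β ε Y : ℝ) :
    FewExceptions.Exceptions B α β ε Y = {t | Bad B α β ε t ∧ H t.2 ≤ Y} := by
  ext t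
  simp only [FewExceptions.Exceptions, Set.mem_ofPred_eq]
  constructor
  · rintro ⟨h1, h2, h3, h4, h5, h6⟩
    exact ⟨⟨⟨h1, h2, h3, h4⟩, h6⟩, h5⟩
  · rintro ⟨⟨⟨h1, h2, h3, h4⟩, h6⟩, h5⟩
    exact ⟨h1, h2, h3, h4, h5, h6⟩

lemma hcount {B : ℕ} {α β ε : ℝ} (hα : 1 ≤ α) (hβ : 0 ≤ β) (hε : ε < 1 / 2) (hB : 2 ≤ ε * B) :
    ∀ δ : ℝ, 0 < δ → ∃ C : ℝ, ∀ Y : ℝ, 1 ≤ Y →
      {t : ℚ × ℚ | Bad B α β ε t ∧ H t.2 ≤ Y}.Finite ∧
      (({t : ℚ × ℚ | Bad B α β ε t ∧ H t.2 ≤ Y}.ncard : ℕ) : ℝ) ≤ C * Y ^ (2 / α + δ) := by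
  intro δ hδ
  obtain ⟨C, hC⟩ := FewExceptions.result B α β ε δ hα hβ hε hB hδ
  refine ⟨C, fun Y hY => ?_⟩
  obtain ⟨h1, h2, -⟩ := hC Y hY
  rw [exceptions_eq] at h1 h2
  exact ⟨h1, h2⟩

lemma hcount_fixed {B : ℕ} {α β ε : ℝ} (hα : 1 ≤ α) (hβ : 0 ≤ β) (hε : ε < 1 / 2)
    (hB : 2 ≤ ε * B) (x : ℚ) :
    ∀ δ : ℝ, 0 < δ → ∃ C : ℝ, ∀ Y : ℝ, 1 ≤ Y →
      {y : ℚ | Bad B α β ε (x, y) ∧ H y ≤ Y}.Finite ∧
      (({y : ℚ | Bad B α β ε (x, y) ∧ H y ≤ Y}.ncard : ℕ) : ℝ) ≤ C * Y ^ (1 / (α * B) + δ) := by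
  intro δ hδ
  obtain ⟨C, hC⟩ := FewExceptions.result B α β ε δ hα hβ hε hB hδ
  refine ⟨C, fun Y hY => ?_⟩
  obtain ⟨h1, -, h2⟩ := hC Y hY
  have h3 := h2 x
  rw [exceptions_eq] at h1 h3
  refine ⟨?_, h3⟩
  have h4 : {y : ℚ | Bad B α β ε (x, y) ∧ H y ≤ Y} =
      (fun y : ℚ => (x, y)) ⁻¹' {t : ℚ × ℚ | Bad B α β ε t ∧ H t.2 ≤ Y} := rfl
  rw [h4]
  exact h1.preimage (Prod.mk_right_injective x).injOn

/-- the inequality for finitely many pairs, with a larger `β` -/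
lemma absorb {B : ℕ} {α ε : ℝ} (hα : 1 ≤ α) (hε : 0 ≤ ε) (hB : 0 < B) {S : Set (ℚ × ℚ)}
    (hS : S.Finite) : ∃ β : ℝ, 0 ≤ β ∧ ∀ t ∈ S, Holds B α β ε t.1 t.2 := by
  have hB0 : (0 : ℝ) < B := by exact_mod_cast hB
  have hc : 0 < (B : ℝ) * (α * (B : ℝ) + ε) := by positivity
  set f : ℚ × ℚ → ℝ := fun t =>
    (-(∑ p ∈ (t.1 * t.2 ^ B + 1).num.natAbs.primeFactors,
      Real.log ((padicNorm p (t.1 * t.2 ^ B + 1) : ℚ) : ℝ)) -
      (α * (B : ℝ) * Real.log (H t.1) + ε * (B : ℝ) * Real.log (H t.2))) /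
        ((B : ℝ) * (α * (B : ℝ) + ε)) with hf
  obtain ⟨β, hβ⟩ := (hS.image f).bddAbove
  refine ⟨max β 0, le_max_right _ _, fun t ht => ?_⟩
  have h1 : f t ≤ max β 0 := (hβ ⟨t, ht, rfl⟩).trans (le_max_left _ _)
  rw [hf] at h1
  simp only at h1
  rw [div_le_iff₀ hc] at h1
  have h2 : 0 ≤ ∑ p ∈ (t.1 * t.2 ^ B + 1).num.natAbs.primeFactors, Real.log (p : ℝ) :=
    Finset.sum_nonneg fun p _ => Real.log_natCast_nonneg p
  unfold Holds
  nlinarith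

lemma holds_mono {B : ℕ} {α β β' ε : ℝ} (hα : 1 ≤ α) (hε : 0 ≤ ε) (hβ : β ≤ β') {x y : ℚ}
    (h : Holds B α β ε x y) : Holds B α β' ε x y := by
  unfold Holds at h ⊢
  have hc : 0 ≤ (B : ℝ) * (α * (B : ℝ) + ε) := by positivity
  nlinarith

/-- **Theorem.** Let `φ` be any map from the pairs `(x, y)` of rational numbers to a metric space `X`.
(1) Let `B ≥ 5` and `ε = 2 / B`. There is a set `E` of Hausdorff dimension zero such that for every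
`ξ` outside `E`, all `A` and all `τ > 0` there are `α ≥ 1` and `β ≥ 0` such that Philippon's inequality
with the constants `B, α, β, ε` holds for all pairs `(x, y)` of the question with
`dist (φ (x, y)) ξ ≤ A * H(y) ^ (-τ)`.
(2) Let `α ≥ 1`, `β ≥ 0`, `ε < 1 / 2`, `ε B ≥ 2` and `τ > 0`. There is a set `E` of dimension at most
`2 / (α τ)` such that for every `ξ` outside `E` and every `A` the inequality holds for all but finitely
many of these pairs.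
(3) For a fixed `x` the dimension is at most `1 / (α B τ)`.
(4) If `μ` is a measure on `X` with `μ (ball of radius r) ≤ C₀ r ^ m`, the conclusion of (2) holds for
`μ`-almost every `ξ` when `2 / α < τ m`. -/
theorem result (X : Type) [MetricSpace X] (φ : ℚ × ℚ → X) :
    (∀ B : ℕ, 5 ≤ B → ∃ E : Set X, dimH E = 0 ∧ ∀ ξ : X, ξ ∉ E → ∀ A τ : ℝ, 0 < τ →
      ∃ α β : ℝ, 1 ≤ α ∧ 0 ≤ β ∧
        ∀ t : ℚ × ℚ, Near φ B A τ ξ t → Holds B α β (2 / (B : ℝ)) t.1 t.2) ∧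
    (∀ (B : ℕ) (α β ε τ : ℝ), 1 ≤ α → 0 ≤ β → ε < 1 / 2 → 2 ≤ ε * B → 0 < τ →
      ∃ E : Set X, dimH E ≤ ENNReal.ofReal (2 / (α * τ)) ∧ ∀ ξ : X, ξ ∉ E → ∀ A : ℝ,
        {t : ℚ × ℚ | Near φ B A τ ξ t ∧ ¬ Holds B α β ε t.1 t.2}.Finite) ∧
    (∀ (B : ℕ) (α β ε τ : ℝ), 1 ≤ α → 0 ≤ β → ε < 1 / 2 → 2 ≤ ε * B → 0 < τ → ∀ x : ℚ,
      ∃ E : Set X, dimH E ≤ ENNReal.ofReal (1 / (α * B * τ)) ∧ ∀ ξ : X, ξ ∉ E → ∀ A : ℝ,
        {y : ℚ | Near φ B A τ ξ (x, y) ∧ ¬ Holds B α β ε x y}.Finite) ∧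
    (∀ (_ : MeasurableSpace X) (μ : Measure X) (C₀ m : ℝ),
      (∀ (x : X) (r : ℝ), 0 < r → μ (Metric.closedBall x r) ≤ ENNReal.ofReal (C₀ * r ^ m)) →
      ∀ (B : ℕ) (α β ε τ : ℝ), 1 ≤ α → 0 ≤ β → ε < 1 / 2 → 2 ≤ ε * B → 2 / α < τ * m →
      ∀ᵐ ξ ∂μ, ∀ A : ℝ, {t : ℚ × ℚ | Near φ B A τ ξ t ∧ ¬ Holds B α β ε t.1 t.2}.Finite) := by
  refine ⟨fun B hB => ?_, fun B α β ε τ hα hβ hε hB hτ => ?_,
    fun B α β ε τ hα hβ hε hB hτ x => ?_, fun _ μ C₀ m hμ B α β ε τ hα hβ hε hB hlt => ?_⟩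
  · have hB0 : (5 : ℝ) ≤ B := by exact_mod_cast hB
    have hBpos : 0 < B := by omega
    have hε0 : 0 ≤ 2 / (B : ℝ) := by positivity
    have hε : 2 / (B : ℝ) < 1 / 2 := by
      rw [div_lt_iff₀ (by linarith)]
      linarith
    have hεB : 2 ≤ 2 / (B : ℝ) * B := by
      rw [div_mul_cancel₀ _ (by linarith : (B : ℝ) ≠ 0)]
    obtain ⟨E, hE, h⟩ := Pool.Agent.R559.NP.near_zero (T := ℚ × ℚ) (H := fun t => H t.2)
      (fun t => one_le_H t.2) (Bad := fun j => Bad B ((j : ℝ) + 1) 0 (2 / (B : ℝ)))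
      (s := fun j => 2 / ((j : ℝ) + 1)) (fun j => by positivity)
      (tendsto_const_nhds.div_atTop
        (tendsto_atTop_add_const_right _ _ tendsto_natCast_atTop_atTop))
      (fun j => hcount (by
        have : (0 : ℝ) ≤ j := Nat.cast_nonneg j
        linarith) le_rfl hε hεB) φ
    refine ⟨E, hE, fun ξ hξ A τ hτ => ?_⟩
    obtain ⟨j, hj⟩ := h ξ hξ A τ hτ
    have hα : (1 : ℝ) ≤ (j : ℝ) + 1 := by
      have : (0 : ℝ) ≤ j := Nat.cast_nonneg j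
      linarith
    obtain ⟨β, hβ0, hβ⟩ := absorb (α := (j : ℝ) + 1) hα hε0 hBpos hj
    refine ⟨(j : ℝ) + 1, β, hα, hβ0, fun t ht => ?_⟩
    by_cases hh : Holds B ((j : ℝ) + 1) 0 (2 / (B : ℝ)) t.1 t.2
    · exact holds_mono hα hε0 hβ0 hh
    · exact hβ t ⟨ht.2, ht.1, hh⟩
  · obtain ⟨E, hE, h⟩ := Pool.Agent.R559.NP.near_dim (T := ℚ × ℚ) (H := fun t => H t.2)
      (fun t => one_le_H t.2) (Bad := Bad B α β ε) (s := 2 / α) (by positivity) hτ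
      (hcount hα hβ hε hB) φ
    rw [div_div] at hE
    refine ⟨E, hE, fun ξ hξ A => (h ξ hξ A).subset ?_⟩
    rintro t ⟨⟨h1, h2⟩, h3⟩
    exact ⟨h2, h1, h3⟩
  · obtain ⟨E, hE, h⟩ := Pool.Agent.R559.NP.near_dim (T := ℚ) (H := fun y => H y)
      (fun y => one_le_H y) (Bad := fun y => Bad B α β ε (x, y)) (s := 1 / (α * B))
      (by positivity) hτ (hcount_fixed hα hβ hε hB x) (fun y => φ (x, y))
    rw [div_div] at hE
    refine ⟨E, hE, fun ξ hξ A => (h ξ hξ A).subset ?_⟩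
    rintro y ⟨⟨h1, h2⟩, h3⟩
    exact ⟨h2, h1, h3⟩
  · have h := Pool.Agent.R559.NP.near_ae μ hμ (T := ℚ × ℚ) (H := fun t => H t.2)
      (fun t => one_le_H t.2) (Bad := Bad B α β ε) (s := 2 / α) (by positivity) hlt
      (hcount hα hβ hε hB) φ
    filter_upwards [h] with ξ hξ A
    refine (hξ A).subset ?_
    rintro t ⟨⟨h1, h2⟩, h3⟩
    exact ⟨h2, h1, h3⟩

end Pool.Agent.Results.MP_05f553_nt.PairsNearAPoint
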