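import Pool.Agent.R728.RC.Core
import Pool.Agent.Results.MP_05f553_nt.FewExceptions

/-!
# Philippon's inequality and congruences to random residues

Let `𝓜` be a set of moduli with `∑ m ^ (-s) < ∞` (the squareful numbers for `s > 1 / 2`, which
contain the powers `p ^ k`, `k ≥ 2`, of all primes; the powers of one number for `s > 0`), and let
`X m` be random residues modulo `m`, each value of which has probability at most `A m ^ (-θ)`,
`θ > s`. No independence is assumed: for instance the residues of a random profinite integer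
(`θ = 1`), of a random point of a Cantor set of `p`-adic integers of dimension `θ`, or of `[m α]`.
Let `φ m` be any maps from the pairs of rational numbers to the residues modulo `m`, and
`ε < 1 / 2`, `ε B ≥ 2`. Almost surely, for every `τ > 0` there is `α` such that Philippon's
inequality holds, with `β = 0`, for ALL `(x, y)` with `φ m (x, y) = X m` for some `m ≥ H(y) ^ τ` in
`𝓜`.
-/

set_option autoImplicit false

namespace Pool.Agent.Results.MP_05f553_nt.RandomResidues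

open MeasureTheory

/-- The logarithmic height `log max (|a|, |b|)` of `r = a / b` (lowest terms). -/
noncomputable def ht (r : ℚ) : ℝ := Real.log (max |((r.num : ℤ) : ℝ)| ((r.den : ℕ) : ℝ))

/-- The height `max (|a|, |b|)` of `r = a / b` (lowest terms). -/
noncomputable def height (r : ℚ) : ℝ := max |((r.num : ℤ) : ℝ)| ((r.den : ℕ) : ℝ)

/-- The inequality of the question for the pair `(x, y)`; the sums are over the primes which divide
the numerator of `x y ^ B + 1`. -/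
def Holds (B : ℕ) (α β ε : ℝ) (x y : ℚ) : Prop :=
  -(∑ p ∈ (x * y ^ B + 1).num.natAbs.primeFactors,
      Real.log ((padicNorm p (x * y ^ B + 1) : ℚ) : ℝ))
    ≤ α * (B : ℝ) * ht x + ε * (B : ℝ) * ht y
      + (B : ℝ) * (α * (B : ℝ) + ε) *
          (β + ∑ p ∈ (x * y ^ B + 1).num.natAbs.primeFactors, Real.log (p : ℝ))

/-- the pairs of the question: nonzero rational numbers with `x y ^ B ≠ 1, -1` -/
def Admissible (B : ℕ) (x y : ℚ) : Prop := x ≠ 0 ∧ y ≠ 0 ∧ x * y ^ B ≠ 1 ∧ x * y ^ B ≠ -1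

/-- every prime dividing `m` divides it at least twice -/
def Squareful (m : ℕ) : Prop := 0 < m ∧ ∀ p : ℕ, p.Prime → p ∣ m → p ^ 2 ∣ m

lemma one_le_height (r : ℚ) : 1 ≤ height r :=
  le_max_of_le_right (by exact_mod_cast r.pos)

lemma ht_nonneg (r : ℚ) : 0 ≤ ht r := Real.log_nonneg (one_le_height r)

/-- the sum of the logarithms of the primes -/
lemma sum_nonneg (x y : ℚ) (B : ℕ) :
    0 ≤ ∑ p ∈ (x * y ^ B + 1).num.natAbs.primeFactors, Real.log (p : ℝ) :=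
  Finset.sum_nonneg fun p hp =>
    Real.log_nonneg (by exact_mod_cast (Nat.prime_of_mem_primeFactors hp).one_lt.le)

lemma Holds.mono {B : ℕ} {α α' β β' ε : ℝ} {x y : ℚ} (h : Holds B α β ε x y) (hε : 0 ≤ ε)
    (hα0 : 0 ≤ α) (hα : α ≤ α') (hβ : β ≤ β') (hβ0 : 0 ≤ β) : Holds B α' β' ε x y := by
  unfold Holds at h ⊢
  refine h.trans ?_
  have hB : (0 : ℝ) ≤ B := Nat.cast_nonneg B
  have h1 := ht_nonneg x
  have h2 := sum_nonneg x y B
  set L := ∑ p ∈ (x * y ^ B + 1).num.natAbs.primeFactors, Real.log (p : ℝ) with hL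
  have h3 : α * (B : ℝ) * ht x ≤ α' * (B : ℝ) * ht x :=
    mul_le_mul_of_nonneg_right (mul_le_mul_of_nonneg_right hα hB) h1
  have h4 : α * (B : ℝ) + ε ≤ α' * (B : ℝ) + ε := by
    have := mul_le_mul_of_nonneg_right hα hB
    linarith
  have h5 : 0 ≤ α * (B : ℝ) + ε := by positivity
  have h6 : (B : ℝ) * (α * (B : ℝ) + ε) * (β + L) ≤ (B : ℝ) * (α' * (B : ℝ) + ε) * (β' + L) :=
    mul_le_mul (mul_le_mul_of_nonneg_left h4 hB) (by linarith) (by linarith)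
      (mul_nonneg hB (h5.trans h4))
  linarith

/-- for a single pair the inequality holds for large `α` -/
lemma exists_alpha {B : ℕ} (hB : 1 ≤ B) {ε : ℝ} (hε : 0 ≤ ε) (x y : ℚ) :
    ∃ α : ℝ, 0 ≤ α ∧ Holds B α 0 ε x y := by
  have hB1 : (1 : ℝ) ≤ B := by exact_mod_cast hB
  set L := ∑ p ∈ (x * y ^ B + 1).num.natAbs.primeFactors, Real.log (p : ℝ) with hL
  set D := -(∑ p ∈ (x * y ^ B + 1).num.natAbs.primeFactors,
      Real.log ((padicNorm p (x * y ^ B + 1) : ℚ) : ℝ)) with hD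
  have h1 := ht_nonneg x
  have h2 := ht_nonneg y
  have h3 : 0 ≤ L := sum_nonneg x y B
  rcases ((x * y ^ B + 1).num.natAbs.primeFactors).eq_empty_or_nonempty with he | ⟨q, hq⟩
  · refine ⟨0, le_rfl, ?_⟩
    unfold Holds
    rw [he]
    simp only [Finset.sum_empty, neg_zero, zero_mul, zero_add, add_zero, mul_zero]
    positivity
  · have hL0 : 0 < L := by
      refine lt_of_lt_of_le (Real.log_pos (show (1 : ℝ) < (q : ℝ) by
        exact_mod_cast (Nat.prime_of_mem_primeFactors hq).one_lt)) ?_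
      exact Finset.single_le_sum (f := fun p : ℕ => Real.log (p : ℝ)) (fun p hp =>
        Real.log_nonneg (by exact_mod_cast (Nat.prime_of_mem_primeFactors hp).one_lt.le)) hq
    refine ⟨|D| / L, by positivity, ?_⟩
    unfold Holds
    rw [← hL, ← hD]
    have h4 : |D| ≤ (B : ℝ) * (|D| / L * (B : ℝ) + ε) * (0 + L) := by
      have h5 : |D| = |D| / L * L := by field_simp
      have h6 : |D| / L ≤ (B : ℝ) * (|D| / L * (B : ℝ) + ε) := by
        have h7 : 0 ≤ |D| / L := by positivity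
        have h8 : |D| / L ≤ |D| / L * (B : ℝ) := le_mul_of_one_le_right h7 hB1
        calc |D| / L ≤ |D| / L * (B : ℝ) + ε := by linarith
          _ ≤ (B : ℝ) * (|D| / L * (B : ℝ) + ε) :=
              le_mul_of_one_le_left (by positivity) hB1
      calc |D| = |D| / L * L := h5
        _ ≤ (B : ℝ) * (|D| / L * (B : ℝ) + ε) * L := mul_le_mul_of_nonneg_right h6 hL0.le
        _ = _ := by rw [zero_add]
    have h9 : 0 ≤ |D| / L * (B : ℝ) * ht x := by positivity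
    have h10 : 0 ≤ ε * (B : ℝ) * ht y := by positivity
    have h11 := le_abs_self D
    linarith

section prob

variable {𝓜 : Set ℕ} {s θ A : ℝ} {Ω : Type*} [MeasurableSpace Ω] {P : Measure Ω}
  {X : ∀ m : ℕ, Ω → ZMod m} {φ : ∀ m : ℕ, ℚ × ℚ → ZMod m}

lemma fin_one {B : ℕ} {α ε τ : ℝ} (hα : 1 ≤ α) (hε : ε < 1 / 2) (hB : 2 ≤ ε * B)
    (h0 : ∀ m ∈ 𝓜, 0 < m) (hs : s < θ) (hsum : Summable fun m : 𝓜 => ((m : ℕ) : ℝ) ^ (-s))
    (hX : ∀ m ∈ 𝓜, ∀ r : ZMod m, P {ω | X m ω = r} ≤ ENNReal.ofReal (A * (m : ℝ) ^ (-θ)))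
    (hτ : 2 / α < (θ - s) * τ) :
    ∀ᵐ ω ∂P, {x : ℕ × (ℚ × ℚ) | x.1 ∈ 𝓜 ∧
      x.2 ∈ {t : ℚ × ℚ | Admissible B t.1 t.2 ∧ ¬ Holds B α 0 ε t.1 t.2} ∧
      height x.2.2 ^ τ ≤ x.1 ∧ φ x.1 x.2 = X x.1 ω}.Finite := by
  refine Pool.Agent.R728.RC.finite_core (H := fun t : ℚ × ℚ => height t.2) (κ := 2 / α)
    (fun t _ => one_le_height t.2) (by positivity) ?_ h0 hs hsum hX hτ
  intro δ hδ
  obtain ⟨C, hC⟩ := FewExceptions.result B α 0 ε δ hα le_rfl hε hB hδ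
  refine ⟨C, fun Y hY => ?_⟩
  obtain ⟨h1, h2, -⟩ := hC Y hY
  have hset : {t : ℚ × ℚ | t ∈ {t : ℚ × ℚ | Admissible B t.1 t.2 ∧ ¬ Holds B α 0 ε t.1 t.2} ∧
      height t.2 ≤ Y} = FewExceptions.Exceptions B α 0 ε Y := by
    ext t
    constructor
    · rintro ⟨⟨⟨h3, h4, h5, h6⟩, h7⟩, h8⟩
      exact ⟨h3, h4, h5, h6, h8, h7⟩
    · rintro ⟨h3, h4, h5, h6, h8, h7⟩
      exact ⟨⟨⟨h3, h4, h5, h6⟩, h7⟩, h8⟩
  rw [hset]
  exact ⟨h1, h2⟩

theorem fin_all {B : ℕ} {ε : ℝ} (hε : ε < 1 / 2) (hB : 2 ≤ ε * B)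
    (h0 : ∀ m ∈ 𝓜, 0 < m) (hs : s < θ) (hsum : Summable fun m : 𝓜 => ((m : ℕ) : ℝ) ^ (-s))
    (hX : ∀ m ∈ 𝓜, ∀ r : ZMod m, P {ω | X m ω = r} ≤ ENNReal.ofReal (A * (m : ℝ) ^ (-θ))) :
    ∀ᵐ ω ∂P, ∀ α τ : ℝ, 1 ≤ α → 2 / α < (θ - s) * τ →
      {x : ℕ × (ℚ × ℚ) | x.1 ∈ 𝓜 ∧ (Admissible B x.2.1 x.2.2 ∧ ¬ Holds B α 0 ε x.2.1 x.2.2) ∧
        height x.2.2 ^ τ ≤ x.1 ∧ φ x.1 x.2 = X x.1 ω}.Finite := by
  have hε0 : 0 ≤ ε := by
    by_contra h
    have : (0 : ℝ) ≤ B := Nat.cast_nonneg B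
    nlinarith
  have hθ : 0 < θ - s := by linarith
  have key : ∀ᵐ ω ∂P, ∀ (a b : ℚ), (1 : ℝ) ≤ a → 2 / (a : ℝ) < (θ - s) * b →
      {x : ℕ × (ℚ × ℚ) | x.1 ∈ 𝓜 ∧
        x.2 ∈ {t : ℚ × ℚ | Admissible B t.1 t.2 ∧ ¬ Holds B a 0 ε t.1 t.2} ∧
        height x.2.2 ^ (b : ℝ) ≤ x.1 ∧ φ x.1 x.2 = X x.1 ω}.Finite := by
    rw [ae_all_iff]
    intro a
    rw [ae_all_iff]
    intro b
    by_cases hab : (1 : ℝ) ≤ a ∧ 2 / (a : ℝ) < (θ - s) * b
    · filter_upwards [fin_one (φ := φ) hab.1 hε hB h0 hs hsum hX hab.2] with ω hω _ _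
      exact hω
    · filter_upwards with ω h1 h2
      exact absurd ⟨h1, h2⟩ hab
  filter_upwards [key] with ω hω α τ hα hτ
  have hα0 : 0 < α := by linarith
  obtain ⟨b, hb1, hb2⟩ := exists_rat_btwn (show 2 / α / (θ - s) < τ by
    rw [div_lt_iff₀ hθ]; linarith)
  have hb3 : 2 / α < (θ - s) * b := by
    rw [div_lt_iff₀ hθ] at hb1
    linarith
  have hb0 : 0 < (θ - s) * (b : ℝ) := lt_trans (by positivity) hb3
  obtain ⟨a, ha1, ha2, ha3⟩ : ∃ a : ℚ, (1 : ℝ) ≤ a ∧ (a : ℝ) ≤ α ∧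
      2 / (a : ℝ) < (θ - s) * b := by
    rcases hα.eq_or_lt with h | h
    · refine ⟨1, by simp, by simp [h], ?_⟩
      rw [← h] at hb3
      simpa using hb3
    · have h2 : 2 / ((θ - s) * b) < α := by
        rw [div_lt_iff₀ hb0]
        rw [div_lt_iff₀ hα0] at hb3
        linarith
      obtain ⟨a, ha1, ha2⟩ := exists_rat_btwn (max_lt h h2)
      have ha3 : (1 : ℝ) < a := (le_max_left _ _).trans_lt ha1
      refine ⟨a, ha3.le, ha2.le, ?_⟩
      have ha4 := (le_max_right 1 (2 / ((θ - s) * (b : ℝ)))).trans_lt ha1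
      rw [div_lt_iff₀ hb0] at ha4
      rw [div_lt_iff₀ (by linarith)]
      linarith
  refine (hω a b ha1 ha3).subset ?_
  rintro ⟨m, t⟩ ⟨h1, ⟨h2, h3⟩, h4, h5⟩
  refine ⟨h1, ⟨h2, fun h => h3 (h.mono hε0 (by linarith) ha2 le_rfl le_rfl)⟩, ?_, h5⟩
  exact (Real.rpow_le_rpow_of_exponent_le (one_le_height _) hb2.le).trans h4

end prob

/-- **Theorem.** Let `𝓜` be a set of positive integers with a convergent sum of the `m ^ (-s)`, and
`X m` random residues modulo `m`, each value of which has probability at most `A m ^ (-θ)`, where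
`s < θ` (no independence is assumed), and `φ m` any maps from the pairs of rational numbers to the
residues modulo `m`; let `ε < 1 / 2` and `ε B ≥ 2`. Almost surely

(1) for every `τ > 0` there is `α ≥ 1` such that for all `m` in `𝓜` all the pairs `(x, y)` of the
question with `H(y) ^ τ ≤ m` and `φ m (x, y) = X m` satisfy the inequality of the question with
`B`, `α`, `ε` and every `β ≥ 0`;

(2) for all `α ≥ 1`, `β ≥ 0` and `τ` with `2 / α < (θ - s) τ` only finitely many `m` in `𝓜` and pairs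
`(x, y)` of the question with `H(y) ^ τ ≤ m` and `φ m (x, y) = X m` violate it.

The sum of the `m ^ (-s)` over the squareful numbers converges for `s > 1 / 2`, and that over
the powers of an integer `b ≥ 2` for `s > 0`. -/
theorem result :
    (∀ (𝓜 : Set ℕ) (s θ A : ℝ) (Ω : Type) [MeasurableSpace Ω] (P : Measure Ω)
      (X : ∀ m : ℕ, Ω → ZMod m) (φ : ∀ m : ℕ, ℚ × ℚ → ZMod m) (B : ℕ) (ε : ℝ),
      (∀ m ∈ 𝓜, 0 < m) → s < θ → (Summable fun m : 𝓜 => ((m : ℕ) : ℝ) ^ (-s)) →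
      (∀ m ∈ 𝓜, ∀ r : ZMod m, P {ω | X m ω = r} ≤ ENNReal.ofReal (A * (m : ℝ) ^ (-θ))) →
      ε < 1 / 2 → 2 ≤ ε * B →
      ∀ᵐ ω ∂P,
        (∀ τ : ℝ, 0 < τ → ∃ α : ℝ, 1 ≤ α ∧ ∀ β : ℝ, 0 ≤ β → ∀ m ∈ 𝓜, ∀ x y : ℚ,
          Admissible B x y → height y ^ τ ≤ m → φ m (x, y) = X m ω → Holds B α β ε x y) ∧
        ∀ α β τ : ℝ, 1 ≤ α → 0 ≤ β → 2 / α < (θ - s) * τ →
          {t : ℕ × (ℚ × ℚ) | t.1 ∈ 𝓜 ∧ Admissible B t.2.1 t.2.2 ∧ height t.2.2 ^ τ ≤ t.1 ∧
            φ t.1 t.2 = X t.1 ω ∧ ¬ Holds B α β ε t.2.1 t.2.2}.Finite) ∧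
    (∀ s : ℝ, 1 / 2 < s → Summable fun m : {m : ℕ | Squareful m} => ((m : ℕ) : ℝ) ^ (-s)) ∧
    ∀ b : ℕ, 2 ≤ b → ∀ s : ℝ, 0 < s →
      Summable fun m : {m : ℕ | ∃ k : ℕ, m = b ^ k} => ((m : ℕ) : ℝ) ^ (-s) := by
  refine ⟨fun 𝓜 s θ A Ω _ P X φ B ε h0 hs hsum hX hε hB => ?_, fun s hs => ?_,
    fun b hb s hs => ?_⟩
  · have hε0 : 0 ≤ ε := by
      by_contra h
      have : (0 : ℝ) ≤ B := Nat.cast_nonneg B
      nlinarith
    have hB1 : 1 ≤ B := by
      rcases Nat.eq_zero_or_pos B with h | h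
      · rw [h] at hB
        norm_num at hB
      · exact h
    have hθ : 0 < θ - s := by linarith
    filter_upwards [fin_all (φ := φ) hε hB h0 hs hsum hX] with ω hω
    refine ⟨fun τ hτ => ?_, fun α β τ hα hβ hτ => ?_⟩
    · obtain ⟨n, hn⟩ := exists_nat_gt (max 1 (2 / ((θ - s) * τ)))
      have hn1 : (1 : ℝ) < n := (le_max_left _ _).trans_lt hn
      have hn2 := (le_max_right 1 (2 / ((θ - s) * τ))).trans_lt hn
      have hn3 : 2 / (n : ℝ) < (θ - s) * τ := by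
        rw [div_lt_iff₀ (by positivity)] at hn2
        rw [div_lt_iff₀ (by linarith)]
        linarith
      have hfin := hω n τ hn1.le hn3
      choose g hg0 hg using fun x y : ℚ => exists_alpha hB1 hε0 x y
      obtain ⟨M, hM⟩ := (hfin.image fun t => g t.2.1 t.2.2).bddAbove
      refine ⟨max n M, hn1.le.trans (le_max_left _ _), fun β hβ m hm x y hxy hle hφ => ?_⟩
      by_cases hh : Holds B n 0 ε x y
      · exact hh.mono hε0 (by linarith) (le_max_left _ _) hβ le_rfl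
      · have h1 := hM ⟨(m, (x, y)), ⟨hm, ⟨hxy, hh⟩, hle, hφ⟩, rfl⟩
        simp only at h1
        exact (hg x y).mono hε0 (hg0 x y) (h1.trans (le_max_right _ _)) hβ le_rfl
    · refine (hω α τ hα hτ).subset ?_
      rintro ⟨m, t⟩ ⟨h1, h2, h3, h4, h5⟩
      exact ⟨h1, ⟨h2, fun h => h5 (h.mono hε0 (by linarith) le_rfl hβ le_rfl)⟩, h3, h4⟩
  · exact Pool.Agent.R728.RC.summable_squareful hs
  · exact Pool.Agent.R728.RC.summable_powers hb hs

end Pool.Agent.Results.MP_05f553_nt.RandomResidues
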