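import Pool.Agent.R909.RandSets
import Pool.Agent.R479.DA.Lim
import Pool.Agent.Results.MP_05f553_nt.FewExceptions

/-!
# Philippon's inequality in random sets of rational numbers

Let `ε < 1 / 2`, `ε B ≥ 2`, and let `A` be a random set of pairs of rational numbers, each pair
`(x, y)` of which occurs with probability at most `C H(y) ^ (-γ)`, `γ > 0`: for instance all pairs
with `y` in a random set of rational numbers which contains `y` with probability `H(y) ^ (-γ)`.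
Almost surely there is `α` such that Philippon's inequality holds, with `β = 0`, for ALL pairs in `A`.
-/

set_option autoImplicit false

namespace Pool.Agent.Results.MP_05f553_nt.RandomSets

open MeasureTheory

/-- The logarithmic height `log max (|a|, |b|)` of `r = a / b` (lowest terms). -/
noncomputable def ht (r : ℚ) : ℝ := Real.log (max |((r.num : ℤ) : ℝ)| ((r.den : ℕ) : ℝ))

/-- The height `max (|a|, |b|)` of `r = a / b` (lowest terms). -/
noncomputable def height (r : ℚ) : ℝ := max |((r.num : ℤ) : ℝ)| ((r.den : ℕ) : ℝ)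

/-- The inequality of the question for the pair `(x, y)`; the sums are over the primes which divide
the numerator of `x y ^ B + 1`. -/
def Holds (B : ℕ) (α β ε : ℝ) (x y : ℚ) : Prop :=
  -(∑ p ∈ (x * y ^ B + 1).num.natAbs.primeFactors,
      Real.log ((padicNorm p (x * y ^ B + 1) : ℚ) : ℝ))
    ≤ α * (B : ℝ) * ht x + ε * (B : ℝ) * ht y
      + (B : ℝ) * (α * (B : ℝ) + ε) *
          (β + ∑ p ∈ (x * y ^ B + 1).num.natAbs.primeFactors, Real.log (p : ℝ))

/-- the pairs of the question: nonzero rational numbers with `x y ^ B ≠ 1, -1` -/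
def Admissible (B : ℕ) (x y : ℚ) : Prop := x ≠ 0 ∧ y ≠ 0 ∧ x * y ^ B ≠ 1 ∧ x * y ^ B ≠ -1

lemma one_le_height (r : ℚ) : 1 ≤ height r :=
  le_max_of_le_right (by exact_mod_cast r.pos)

lemma ht_nonneg (r : ℚ) : 0 ≤ ht r := Real.log_nonneg (one_le_height r)

/-- the sum of the logarithms of the primes -/
lemma sum_nonneg (x y : ℚ) (B : ℕ) :
    0 ≤ ∑ p ∈ (x * y ^ B + 1).num.natAbs.primeFactors, Real.log (p : ℝ) :=
  Finset.sum_nonneg fun p hp =>
    Real.log_nonneg (by exact_mod_cast (Nat.prime_of_mem_primeFactors hp).one_lt.le)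

lemma Holds.mono {B : ℕ} {α α' β β' ε : ℝ} {x y : ℚ} (h : Holds B α β ε x y) (hε : 0 ≤ ε)
    (hα0 : 0 ≤ α) (hα : α ≤ α') (hβ : β ≤ β') (hβ0 : 0 ≤ β) : Holds B α' β' ε x y := by
  unfold Holds at h ⊢
  refine h.trans ?_
  have hB : (0 : ℝ) ≤ B := Nat.cast_nonneg B
  have h1 := ht_nonneg x
  have h2 := sum_nonneg x y B
  set L := ∑ p ∈ (x * y ^ B + 1).num.natAbs.primeFactors, Real.log (p : ℝ) with hL
  have h3 : α * (B : ℝ) * ht x ≤ α' * (B : ℝ) * ht x :=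
    mul_le_mul_of_nonneg_right (mul_le_mul_of_nonneg_right hα hB) h1
  have h4 : α * (B : ℝ) + ε ≤ α' * (B : ℝ) + ε := by
    have := mul_le_mul_of_nonneg_right hα hB
    linarith
  have h5 : 0 ≤ α * (B : ℝ) + ε := by positivity
  have h6 : (B : ℝ) * (α * (B : ℝ) + ε) * (β + L) ≤ (B : ℝ) * (α' * (B : ℝ) + ε) * (β' + L) :=
    mul_le_mul (mul_le_mul_of_nonneg_left h4 hB) (by linarith) (by linarith)
      (mul_nonneg hB (h5.trans h4))
  linarith

/-- for a single pair the inequality holds for large `α` -/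
lemma exists_alpha {B : ℕ} (hB : 1 ≤ B) {ε : ℝ} (hε : 0 ≤ ε) (x y : ℚ) :
    ∃ α : ℝ, 0 ≤ α ∧ Holds B α 0 ε x y := by
  have hB1 : (1 : ℝ) ≤ B := by exact_mod_cast hB
  set L := ∑ p ∈ (x * y ^ B + 1).num.natAbs.primeFactors, Real.log (p : ℝ) with hL
  set D := -(∑ p ∈ (x * y ^ B + 1).num.natAbs.primeFactors,
      Real.log ((padicNorm p (x * y ^ B + 1) : ℚ) : ℝ)) with hD
  have h1 := ht_nonneg x
  have h2 := ht_nonneg y
  have h3 : 0 ≤ L := sum_nonneg x y B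
  rcases ((x * y ^ B + 1).num.natAbs.primeFactors).eq_empty_or_nonempty with he | ⟨q, hq⟩
  · refine ⟨0, le_rfl, ?_⟩
    unfold Holds
    rw [he]
    simp only [Finset.sum_empty, neg_zero, zero_mul, zero_add, add_zero, mul_zero]
    positivity
  · have hL0 : 0 < L := by
      refine lt_of_lt_of_le (Real.log_pos (show (1 : ℝ) < (q : ℝ) by
        exact_mod_cast (Nat.prime_of_mem_primeFactors hq).one_lt)) ?_
      exact Finset.single_le_sum (f := fun p : ℕ => Real.log (p : ℝ)) (fun p hp =>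
        Real.log_nonneg (by exact_mod_cast (Nat.prime_of_mem_primeFactors hp).one_lt.le)) hq
    refine ⟨|D| / L, by positivity, ?_⟩
    unfold Holds
    rw [← hL, ← hD]
    have h4 : |D| ≤ (B : ℝ) * (|D| / L * (B : ℝ) + ε) * (0 + L) := by
      have h5 : |D| = |D| / L * L := by field_simp
      have h6 : |D| / L ≤ (B : ℝ) * (|D| / L * (B : ℝ) + ε) := by
        have h7 : 0 ≤ |D| / L := by positivity
        have h8 : |D| / L ≤ |D| / L * (B : ℝ) := le_mul_of_one_le_right h7 hB1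
        calc |D| / L ≤ |D| / L * (B : ℝ) + ε := by linarith
          _ ≤ (B : ℝ) * (|D| / L * (B : ℝ) + ε) :=
              le_mul_of_one_le_left (by positivity) hB1
      calc |D| = |D| / L * L := h5
        _ ≤ (B : ℝ) * (|D| / L * (B : ℝ) + ε) * L := mul_le_mul_of_nonneg_right h6 hL0.le
        _ = _ := by rw [zero_add]
    have h9 : 0 ≤ |D| / L * (B : ℝ) * ht x := by positivity
    have h10 : 0 ≤ ε * (B : ℝ) * ht y := by positivity
    have h11 := le_abs_self D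
    linarith

section prob

variable {Ω : Type} [MeasurableSpace Ω] {P : Measure Ω} {A : Ω → Set (ℚ × ℚ)} {γ C₀ : ℝ}

lemma summable_viol {B : ℕ} {α ε p : ℝ} (hα : 1 ≤ α) (hε : ε < 1 / 2) (hB : 2 ≤ ε * B)
    (hp : 2 / α < p) :
    Summable fun t : {t : ℚ × ℚ // Admissible B t.1 t.2 ∧ ¬ Holds B α 0 ε t.1 t.2} =>
      height t.1.2 ^ (-p) := by
  have h2α : 0 < 2 / α := by positivity
  obtain ⟨C, hC⟩ := FewExceptions.result B α 0 ε ((p - 2 / α) / 2) hα le_rfl hε hB (by linarith)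
  refine Pool.Agent.R479.DA.summable_heights
    (fun t : {t : ℚ × ℚ // Admissible B t.1 t.2 ∧ ¬ Holds B α 0 ε t.1 t.2} => height t.1.2)
    (fun t => one_le_height t.1.2) (s := 2 / α + (p - 2 / α) / 2) (p := p) (C := C)
    (by linarith) (by linarith) (fun Y hY => ?_)
  obtain ⟨h1, h2, -⟩ := hC Y hY
  have hmaps : Set.MapsTo Subtype.val
      {t : {t : ℚ × ℚ // Admissible B t.1 t.2 ∧ ¬ Holds B α 0 ε t.1 t.2} | height t.1.2 ≤ Y}
      (FewExceptions.Exceptions B α 0 ε Y) := by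
    rintro ⟨t, ⟨⟨h3, h4, h5, h6⟩, h7⟩⟩ h8
    exact ⟨h3, h4, h5, h6, h8, h7⟩
  have hinj : Set.InjOn Subtype.val
      {t : {t : ℚ × ℚ // Admissible B t.1 t.2 ∧ ¬ Holds B α 0 ε t.1 t.2} | height t.1.2 ≤ Y} :=
    Subtype.val_injective.injOn
  refine ⟨h1.of_injOn hmaps hinj, ?_⟩
  have h3 := Set.ncard_le_ncard_of_injOn _ hmaps hinj h1
  exact le_trans (by exact_mod_cast h3) h2

/-- each pair `(x, y)` belongs to the random set `A` with probability at most `C H(y) ^ (-γ)` -/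
def Sparse {Ω : Type} [MeasurableSpace Ω] (P : Measure Ω) (A : Ω → Set (ℚ × ℚ)) (γ C : ℝ) : Prop :=
  ∀ x y : ℚ, P {ω | (x, y) ∈ A ω} ≤ ENNReal.ofReal (C * height y ^ (-γ))

lemma one {B : ℕ} {α ε η : ℝ} (hA : Sparse P A γ C₀) (hα : 1 ≤ α) (hε : ε < 1 / 2)
    (hB : 2 ≤ ε * B) (hη : 0 ≤ η) (h : 2 / α + η < γ) :
    (∀ᵐ ω ∂P, {t : ℚ × ℚ | (Admissible B t.1 t.2 ∧ ¬ Holds B α 0 ε t.1 t.2) ∧ t ∈ A ω}.Finite) ∧
    ∃ K : ℝ, ∀ Y : ℝ, 1 ≤ Y → P {ω | ∃ t : ℚ × ℚ, (Admissible B t.1 t.2 ∧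
      ¬ Holds B α 0 ε t.1 t.2) ∧ Y ≤ height t.2 ∧ t ∈ A ω} ≤ ENNReal.ofReal (K * Y ^ (-η)) :=
  Pool.Agent.R909.RS.main_subtype (H := fun t : ℚ × ℚ => height t.2)
    (Q := fun t => Admissible B t.1 t.2 ∧ ¬ Holds B α 0 ε t.1 t.2) (E := fun t => {ω | t ∈ A ω})
    (C := C₀) (q := γ) (p := γ - η) (fun t _ => one_le_height t.2) (fun t _ => hA t.1 t.2) hη
    (by linarith) (summable_viol hα hε hB (by linarith))

theorem fin_all {B : ℕ} {ε : ℝ} (hε : ε < 1 / 2) (hB : 2 ≤ ε * B) (hA : Sparse P A γ C₀) :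
    ∀ᵐ ω ∂P, ∀ α : ℝ, 1 ≤ α → 2 / α < γ →
      {t : ℚ × ℚ | (Admissible B t.1 t.2 ∧ ¬ Holds B α 0 ε t.1 t.2) ∧ t ∈ A ω}.Finite := by
  have hε0 : 0 ≤ ε := by
    by_contra h
    have : (0 : ℝ) ≤ B := Nat.cast_nonneg B
    nlinarith
  have key : ∀ᵐ ω ∂P, ∀ (a : ℚ), (1 : ℝ) ≤ a → 2 / (a : ℝ) < γ →
      {t : ℚ × ℚ | (Admissible B t.1 t.2 ∧ ¬ Holds B a 0 ε t.1 t.2) ∧ t ∈ A ω}.Finite := by
    rw [ae_all_iff]
    intro a
    by_cases hab : (1 : ℝ) ≤ a ∧ 2 / (a : ℝ) < γ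
    · filter_upwards [(one hA hab.1 hε hB le_rfl (by linarith [hab.2])).1] with ω hω _ _
      exact hω
    · filter_upwards with ω h1 h2
      exact absurd ⟨h1, h2⟩ hab
  filter_upwards [key] with ω hω α hα h
  have hα0 : 0 < α := by linarith
  have hγ : 0 < γ := lt_trans (by positivity) h
  obtain ⟨a, ha1, ha2, ha3⟩ : ∃ a : ℚ, (1 : ℝ) ≤ a ∧ (a : ℝ) ≤ α ∧ 2 / (a : ℝ) < γ := by
    rcases hα.eq_or_lt with h0 | h0
    · refine ⟨1, by simp, by simp [h0], ?_⟩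
      rw [← h0] at h
      simpa using h
    · have h2 : 2 / γ < α := by
        rw [div_lt_iff₀ hγ]
        rw [div_lt_iff₀ hα0] at h
        linarith
      obtain ⟨a, ha1, ha2⟩ := exists_rat_btwn (max_lt h0 h2)
      have ha3 : (1 : ℝ) < a := (le_max_left _ _).trans_lt ha1
      refine ⟨a, ha3.le, ha2.le, ?_⟩
      have ha4 := (le_max_right 1 (2 / γ)).trans_lt ha1
      rw [div_lt_iff₀ hγ] at ha4
      rw [div_lt_iff₀ (by linarith)]
      linarith
  refine (hω a ha1 ha3).subset ?_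
  rintro t ⟨⟨h2, h3⟩, h4⟩
  exact ⟨⟨h2, fun h => h3 (h.mono hε0 (by linarith) ha2 le_rfl le_rfl)⟩, h4⟩

end prob

/-- **Theorem.** Let `ε < 1 / 2`, `ε B ≥ 2`, and let `A` be a random set of pairs of rational numbers,
each pair `(x, y)` of which occurs with probability at most `C₀ H(y) ^ (-γ)`, where `γ > 0`.

(1) Almost surely there is `α ≥ 1` such that all the pairs `(x, y)` of the question in `A` satisfy the
inequality of the question with `B`, `α`, `ε` and every `β ≥ 0`.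

(2) Almost surely, for all `α ≥ 1` and `β ≥ 0` with `2 / α < γ` only finitely many of the pairs of the
question in `A` violate it.

(3) If `α ≥ 1`, `β ≥ 0`, `η ≥ 0` and `2 / α + η < γ`, there is `K` such that the probability that
some pair `(x, y)` of the question in `A` with `H(y) ≥ Y` violates it is at most `K Y ^ (-η)`, for all
`Y ≥ 1`. -/
theorem result (Ω : Type) [MeasurableSpace Ω] (P : Measure Ω) (A : Ω → Set (ℚ × ℚ)) (γ C₀ : ℝ)
    (hA : Sparse P A γ C₀) (hγ : 0 < γ) (B : ℕ) (ε : ℝ) (hε : ε < 1 / 2) (hB : 2 ≤ ε * B) :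
    (∀ᵐ ω ∂P, ∃ α : ℝ, 1 ≤ α ∧ ∀ β : ℝ, 0 ≤ β → ∀ x y : ℚ, Admissible B x y → (x, y) ∈ A ω →
      Holds B α β ε x y) ∧
    (∀ᵐ ω ∂P, ∀ α β : ℝ, 1 ≤ α → 0 ≤ β → 2 / α < γ →
      {t : ℚ × ℚ | Admissible B t.1 t.2 ∧ t ∈ A ω ∧ ¬ Holds B α β ε t.1 t.2}.Finite) ∧
    (∀ α β η : ℝ, 1 ≤ α → 0 ≤ β → 0 ≤ η → 2 / α + η < γ → ∃ K : ℝ, ∀ Y : ℝ, 1 ≤ Y →
      P {ω | ∃ x y : ℚ, Admissible B x y ∧ Y ≤ height y ∧ (x, y) ∈ A ω ∧ ¬ Holds B α β ε x y} ≤
        ENNReal.ofReal (K * Y ^ (-η))) := by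
  have hε0 : 0 ≤ ε := by
    by_contra h
    have : (0 : ℝ) ≤ B := Nat.cast_nonneg B
    nlinarith
  have hB1 : 1 ≤ B := by
    rcases Nat.eq_zero_or_pos B with h | h
    · rw [h] at hB
      norm_num at hB
    · exact h
  refine ⟨?_, ?_, fun α β η hα hβ hη h => ?_⟩
  · filter_upwards [fin_all hε hB hA] with ω hω
    obtain ⟨n, hn⟩ := exists_nat_gt (max 1 (2 / γ))
    have hn1 : (1 : ℝ) < n := (le_max_left _ _).trans_lt hn
    have hn2 := (le_max_right 1 (2 / γ)).trans_lt hn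
    have hn3 : 2 / (n : ℝ) < γ := by
      rw [div_lt_iff₀ (by positivity)] at hn2
      rw [div_lt_iff₀ (by linarith)]
      linarith
    have hfin := hω n hn1.le hn3
    choose g hg0 hg using fun x y : ℚ => exists_alpha hB1 hε0 x y
    obtain ⟨M, hM⟩ := (hfin.image fun t : ℚ × ℚ => g t.1 t.2).bddAbove
    refine ⟨max n M, hn1.le.trans (le_max_left _ _), fun β hβ x y hxy hmem => ?_⟩
    by_cases hh : Holds B n 0 ε x y
    · exact hh.mono hε0 (by linarith) (le_max_left _ _) hβ le_rfl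
    · have h1 := hM ⟨(x, y), ⟨⟨hxy, hh⟩, hmem⟩, rfl⟩
      simp only at h1
      exact (hg x y).mono hε0 (hg0 x y) (h1.trans (le_max_right _ _)) hβ le_rfl
  · filter_upwards [fin_all hε hB hA] with ω hω α β hα hβ h
    refine (hω α hα h).subset ?_
    rintro t ⟨h2, h3, h4⟩
    exact ⟨⟨h2, fun h => h4 (h.mono hε0 (by linarith) le_rfl hβ le_rfl)⟩, h3⟩
  · obtain ⟨K, hK⟩ := (one hA hα hε hB hη h).2
    refine ⟨K, fun Y hY => (measure_mono ?_).trans (hK Y hY)⟩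
    rintro ω ⟨x, y, h2, h3, h4, h5⟩
    exact ⟨(x, y), ⟨h2, fun h => h5 (h.mono hε0 (by linarith) le_rfl hβ le_rfl)⟩, h3, h4⟩

end Pool.Agent.Results.MP_05f553_nt.RandomSets
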