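import Pool.Agent.Results.MP_05f553_nt.SequenceHeights
import Pool.Agent.R482.ST.Star

/-!
# Philippon's inequality for all rationals with a coordinate near powers, orbits and other sequences

Let `f_n`, `n = 0, 1, 2, …`, be positive functions on `(a, ∞)`, `a ≥ 0`, such that `f_n(t) / t` is nondecreasing, and such
that the sequence `f_n(t)` has exponent of convergence at most `τ` for each `t > a`: for instance `f_n(t) = t ^ (v_n)` for
exponents `v_n ≥ 1` (`τ = 0`; all powers, the powers `t ^ (3 ^ n)` of Mills, …), the orbits `f_n(t) = g (g (⋯ g (t)))` of any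
map `g` with `g(t) > t` and `g(t) / t` nondecreasing (`τ = 0`; for instance of `t² + c`), and `f_n(t) = v_n t`.
Let `A ≥ 1` and `θ < 1`. For all `ρ > a` outside a set of Hausdorff dimension at most `(2 A / α + τ) / (1 - θ)` and every `c`,
for all but finitely many `n` Philippon's inequality holds for ALL `x` and all `y` with a numerator `± m` or denominator `m`
such that `|m - f_n(ρ)| ≤ c f_n(ρ) ^ θ`, and of height at most `m ^ A` (for `A = 1`: all `y` with such a height). If `n` may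
depend on `x`, then `2 A / α` can be replaced by `A / (α B)`.
-/

set_option autoImplicit false

namespace Pool.Agent.Results.MP_05f553_nt.StarshapedHeights

open Pool.Agent.Results.MP_05f553_nt (FewExceptions.Holds)

/-- the functions `f n` are positive on `(a, ∞)`, `a ≥ 0`, and `f n x / x` is nondecreasing there -/
def Starshaped (a : ℝ) (f : ℕ → ℝ → ℝ) : Prop :=
  0 ≤ a ∧ ∀ n : ℕ, ∀ x y : ℝ, a < x → x ≤ y → 0 < f n x ∧ f n x / x ≤ f n y / y

/-- for each `x > a` the exponent of convergence of the sequence `f n x` is at most `τ` -/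
def ExpLe (a : ℝ) (f : ℕ → ℝ → ℝ) (τ : ℝ) : Prop :=
  ∀ x : ℝ, a < x → ∀ t : ℝ, τ < t → Summable (fun n : ℕ => (f n x) ^ (-t))

/-- `y` has numerator `± m` or denominator `m`, and height at most `m ^ A` -/
def Has (A : ℝ) (m : ℕ) (y : ℚ) : Prop :=
  (y.num.natAbs = m ∨ y.den = m) ∧ max |((y.num : ℤ) : ℝ)| ((y.den : ℕ) : ℝ) ≤ (m : ℝ) ^ A

/-- the inequality holds for all nonzero `y` with `Has A m y` and this `x` -/
def Good (B : ℕ) (α β ε A : ℝ) (x : ℚ) (m : ℕ) : Prop :=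
  ∀ y : ℚ, y ≠ 0 → x * y ^ B ≠ 1 → x * y ^ B ≠ -1 → Has A m y → FewExceptions.Holds B α β ε x y

/-- **Theorem.** Let `α ≥ 1`, `β ≥ 0`, `ε < 1/2`, `ε B ≥ 2`, `A ≥ 1`, `θ < 1` and let `f` be starshaped functions on
`(a, ∞)` of exponent of convergence at most `τ ≥ 0`.
(1) There is a set `E` of Hausdorff dimension at most `(2 A / α + τ) / (1 - θ)` such that for each `ρ > a` outside `E` and
each `c`, for all but finitely many `n` the inequality holds for ALL `x ≠ 0` and all `y ≠ 0` of height at most `m ^ A` with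
numerator `± m` or denominator `m`, where `|m - f_n(ρ)| ≤ c f_n(ρ) ^ θ` (and `x y ^ B ≠ ± 1`).
(2) There is a set `E` of Hausdorff dimension at most `(A / (α B) + τ) / (1 - θ)` such that for each `ρ > a` outside `E`, each
`x ≠ 0` and each `c` the same is true for this `x` for all but finitely many `n`.
(3) The functions `v_n x`, `v_n > 0`, are starshaped on `(0, ∞)`, of exponent `τ` if `v` has exponent of convergence at most
`τ`; the functions `x ^ (v_n)`, `v_n ≥ 1`, are starshaped on `(1, ∞)`, of exponent `0` if the sums of `exp (-t v_n)` converge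
for `t > 0`; and the iterates of a map `g` with `g(x) > x` for `x > a` and `g(x) / x` nondecreasing are starshaped on
`(a, ∞)`, of exponent `0`. -/
theorem result (B : ℕ) (α β ε A θ : ℝ) (hα : 1 ≤ α) (hβ : 0 ≤ β) (hε : ε < 1 / 2) (hB : 2 ≤ ε * B) (hA : 1 ≤ A)
    (hθ1 : θ < 1) :
    (∀ (a : ℝ) (f : ℕ → ℝ → ℝ) (τ : ℝ), Starshaped a f → 0 ≤ τ → ExpLe a f τ →
      (∃ E : Set ℝ, dimH E ≤ ENNReal.ofReal ((2 * A / α + τ) / (1 - θ)) ∧ ∀ ρ : ℝ, a < ρ → ρ ∉ E → ∀ c : ℝ,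
        ∃ n₀ : ℕ, ∀ n : ℕ, n₀ ≤ n → ∀ m : ℕ, |(m : ℝ) - f n ρ| ≤ c * (f n ρ) ^ θ → ∀ x : ℚ, x ≠ 0 →
          Good B α β ε A x m) ∧
      (∃ E : Set ℝ, dimH E ≤ ENNReal.ofReal ((A / (α * B) + τ) / (1 - θ)) ∧ ∀ ρ : ℝ, a < ρ → ρ ∉ E →
        ∀ x : ℚ, x ≠ 0 → ∀ c : ℝ, ∃ n₀ : ℕ, ∀ n : ℕ, n₀ ≤ n → ∀ m : ℕ, |(m : ℝ) - f n ρ| ≤ c * (f n ρ) ^ θ →
          Good B α β ε A x m)) ∧
    (∀ (v : ℕ → ℝ) (τ : ℝ), (∀ n, 0 < v n) → (∀ t : ℝ, τ < t → Summable (fun n : ℕ => (v n) ^ (-t))) →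
      Starshaped 0 (fun n x => v n * x) ∧ ExpLe 0 (fun n x => v n * x) τ) ∧
    (∀ v : ℕ → ℝ, (∀ n, 1 ≤ v n) → (∀ t : ℝ, 0 < t → Summable fun n : ℕ => Real.exp (-(t * v n))) →
      Starshaped 1 (fun n x => x ^ (v n)) ∧ ExpLe 1 (fun n x => x ^ (v n)) 0) ∧
    (∀ (a : ℝ) (g : ℝ → ℝ), 0 ≤ a → (∀ x y : ℝ, a < x → x ≤ y → g x / x ≤ g y / y) → (∀ x : ℝ, a < x → x < g x) →
      Starshaped a (fun n x => g^[n] x) ∧ ExpLe a (fun n x => g^[n] x) 0) := by
  have hA0 : 0 < A := by linarith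
  have hα0 : 0 < α := by linarith
  refine ⟨fun a f τ hf hτ hE => ⟨?_, ?_⟩, Pool.Agent.R482.ST.ex_mul, Pool.Agent.R482.ST.ex_pow,
    Pool.Agent.R482.ST.ex_orbit⟩
  · obtain ⟨E, h1, h2⟩ := Pool.Agent.R482.ST.win_nat (SequenceHeights.Bad B α β ε A) hf hτ hE (s := A * (2 / α))
      (by positivity) hθ1 (SequenceHeights.count B α β ε A hα hβ hε hB hA)
    rw [show A * (2 / α) + τ = 2 * A / α + τ by ring] at h1
    refine ⟨E, h1, fun ρ hρ hρE c => ?_⟩
    obtain ⟨n₀, hn⟩ := h2 ρ hρ hρE c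
    refine ⟨n₀, fun n hn1 m hm x hx => ?_⟩
    by_contra hcon
    exact (hn n hn1 m hm).2 ⟨x, hx, hcon⟩
  · have hx : ∀ x : {x : ℚ // x ≠ 0}, ∃ E : Set ℝ, dimH E ≤ ENNReal.ofReal ((A / (α * B) + τ) / (1 - θ)) ∧
        ∀ ρ : ℝ, a < ρ → ρ ∉ E → ∀ c : ℝ, ∃ n₀ : ℕ, ∀ n : ℕ, n₀ ≤ n → ∀ m : ℕ, |(m : ℝ) - f n ρ| ≤ c * (f n ρ) ^ θ →
          Good B α β ε A x m := by
      intro x
      obtain ⟨E, h1, h2⟩ := Pool.Agent.R482.ST.win_nat (SequenceHeights.BadAt B α β ε A x) hf hτ hE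
        (s := A * (1 / (α * B))) (by positivity) hθ1 (SequenceHeights.countAt B α β ε A hα hβ hε hB hA x x.2)
      rw [show A * (1 / (α * B)) + τ = A / (α * B) + τ by ring] at h1
      refine ⟨E, h1, fun ρ hρ hρE c => ?_⟩
      obtain ⟨n₀, hn⟩ := h2 ρ hρ hρE c
      refine ⟨n₀, fun n hn1 m hm => ?_⟩
      by_contra hcon
      exact (hn n hn1 m hm).2 hcon
    choose E h1 h2 using hx
    refine ⟨⋃ x, E x, ?_, fun ρ hρ hρE x hx => ?_⟩
    · rw [dimH_iUnion]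
      exact iSup_le h1
    · exact h2 ⟨x, hx⟩ ρ hρ (fun h => hρE (Set.mem_iUnion.2 ⟨_, h⟩))

end Pool.Agent.Results.MP_05f553_nt.StarshapedHeights
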